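import Pool.Agent.FCG.First

/-!
# Splitting off a countable closed pair

If `GM` is countable, then `QM` is a direct factor of every subgroup of `Qh G` containing it
(whatever its cardinality).  Together with the result for `G / Z_2(G)` this gives the embedding of
`G / Z(G)` whenever the centre of `G / Z(G)` is countable.
-/

namespace Pool.Agent.FCG

open Subgroup Cardinal Pool.Agent.Hhelper87.FC
open scoped IsMulCommutative

universe u

variable {G : Type u} [Group G] {Dt : Dat G} {GM : Subgroup G} {QM : Subgroup (MulAut G)}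

theorem exists_exhaust (hc : (GM : Set G).Countable) : ∃ T : ℕ → Subgroup G,
    (∀ n, FN (T n)) ∧ (∀ n, T n ≤ GM) ∧ Monotone T ∧ ∀ E, FN E → E ≤ GM → ∃ n, E ≤ T n := by
  classical
  have h1 : {E : Subgroup G | FN E ∧ E ≤ GM}.Countable := by
    have h2 : {s : Set G | s.Finite ∧ s ⊆ (GM : Set G)}.Countable :=
      Set.countable_ofPred_finite_subset hc
    have h3 := Set.Countable.preimage_of_injOn h2 (f := fun E : Subgroup G => (E : Set G))
      (SetLike.coe_injective.injOn)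
    refine h3.mono ?_
    rintro E ⟨hE, hE2⟩
    exact ⟨hE.2, hE2⟩
  obtain ⟨E, hE⟩ := h1.exists_eq_range ⟨⊥, FN.bot, bot_le⟩
  have hE1 : ∀ n, FN (E n) ∧ E n ≤ GM := by
    intro n
    have : E n ∈ Set.range E := ⟨n, rfl⟩
    rw [← hE] at this
    exact this
  obtain ⟨T, hT0, hTs⟩ : ∃ T : ℕ → Subgroup G, T 0 = ⊥ ∧ ∀ n, T (n + 1) = T n ⊔ E n :=
    ⟨fun n => Nat.rec (motive := fun _ => Subgroup G) ⊥ (fun n T => T ⊔ E n) n, rfl,
      fun _ => rfl⟩
  have hTFN : ∀ n, FN (T n) := by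
    intro n
    induction n with
    | zero => rw [hT0]; exact FN.bot
    | succ n ih => rw [hTs]; exact ih.sup (hE1 _).1
  have hTle : ∀ n, T n ≤ GM := by
    intro n
    induction n with
    | zero => rw [hT0]; exact bot_le
    | succ n ih => rw [hTs]; exact sup_le ih (hE1 _).2
  have hTmono : Monotone T := by
    apply monotone_nat_of_le_succ
    intro n
    rw [hTs]
    exact le_sup_left
  refine ⟨T, hTFN, hTle, hTmono, fun E' h1 h2 => ?_⟩
  have h3 : E' ∈ Set.range E := by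
    rw [← hE]
    exact ⟨h1, h2⟩
  obtain ⟨n, rfl⟩ := h3
  exact ⟨n + 1, by rw [hTs]; exact le_sup_right⟩

/-- A countable closed pair is a direct factor. -/
theorem decomp_countable (M : ClosedPair Dt GM QM) (hc : (GM : Set G).Countable)
    {P' : Subgroup (MulAut G)} (hP' : P' ≤ Qh G) (hQP : QM ≤ P') :
    ∃ L : Subgroup (MulAut G), L ≤ P' ∧ QM ⊓ L = ⊥ ∧ (∀ ψ ∈ P', ∃ φ ∈ QM, ∃ l ∈ L, ψ = φ * l) ∧
      ∀ p ∈ QM, ∀ l ∈ L, l * p = p * l := by
  classical
  have hpure := M.pureBB hP' hQP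
  obtain ⟨T, hTFN, hTle, hTmono, hTcov⟩ := exists_exhaust hc
  let An : ℕ → Subgroup (theta GM P' hP').range := fun n =>
    { carrier := {z | ∀ x : GM, ((z.1 x : center G) : G) ∈ T n}
      one_mem' := fun x => one_mem _
      mul_mem' := fun {a b} ha hb x => mul_mem (ha x) (hb x)
      inv_mem' := fun {a} ha x => inv_mem (ha x) }
  have hAn : ∀ n z, z ∈ An n ↔ ∀ x : GM, ((z.1 x : center G) : G) ∈ T n := fun n z => Iff.rfl
  have hAmono : Monotone An := fun n n' hn z hz x => hTmono hn (hz x)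
  have hAcov : ∀ z, ∃ n, z ∈ An n := by
    intro z
    obtain ⟨χ, rfl⟩ := MonoidHom.rangeRestrict_surjective _ z
    obtain ⟨E, hE, hEM, h1⟩ := M.exists_E (hP' χ.2.1)
    obtain ⟨n, hn⟩ := hTcov E hE hEM
    exact ⟨n, fun x => hn (h1 x x.2)⟩
  have hsep : ∀ n, ∀ z ∈ An n, ∀ c ∈ BB GM QM P' hP', ∀ y,
      z = c * y ^ ((Dt.NE (T n)).relIndex (_root_.commutator G)) → z ∈ BB GM QM P' hP' := by
    intro n z hz c hc y hzc
    have hE := hTFN n
    have hEM := hTle n
    have hNn := Dt.normal (T n) hE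
    obtain ⟨χ, rfl⟩ := MonoidHom.rangeRestrict_surjective _ z
    have h1 : ∀ x ∈ GM, (χ : MulAut G) x * x⁻¹ ∈ T n := fun x hx => hz ⟨x, hx⟩
    obtain ⟨φ, hφ, rfl⟩ := mem_BB.mp hc
    obtain ⟨ρ, rfl⟩ := MonoidHom.rangeRestrict_surjective _ y
    have h2 : ∀ x ∈ GM, (χ : MulAut G) x * ((φ : MulAut G) x)⁻¹ ∈ Dt.NE (T n) := by
      intro x hx
      have h3 := congrArg (fun t : (theta GM P' hP').range => ((t.1 ⟨x, hx⟩ : center G) : G)) hzc
      have h4 : (χ : MulAut G) x * x⁻¹ = ((φ : MulAut G) x * x⁻¹) *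
          ((ρ : MulAut G) x * x⁻¹) ^ ((Dt.NE (T n)).relIndex (_root_.commutator G)) := h3
      have h5 := displacement_mem_commutator (LI_of_mem_Qh (hP' ρ.2.1)) x
      have h6 := pow_relIndex_mem (N := Dt.NE (T n)) h5
      have h7 : (χ : MulAut G) x * ((φ : MulAut G) x)⁻¹
          = ((φ : MulAut G) x * x⁻¹) *
          ((ρ : MulAut G) x * x⁻¹) ^ ((Dt.NE (T n)).relIndex (_root_.commutator G)) *
          ((φ : MulAut G) x * x⁻¹)⁻¹ := by
        rw [← h4]
        group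
      rw [h7]
      exact hNn.conj_mem _ h6 _
    obtain ⟨τ, hτ, h3⟩ := (M.g2 (T n) hE hEM φ hφ).use (LI_of_mem_Qh (hP' χ.2.1)) (by
      intro x hx
      exact ⟨h1 x hx, h2 x hx⟩)
    have h4 : ∀ x ∈ GM, τ x = (χ : MulAut G) x := by
      intro x hx
      have h5 : τ x * ((χ : MulAut G) x)⁻¹ ∈ T n := by
        have := mul_mem (h3 x).1 (inv_mem (h1 x hx))
        convert this using 1
        group
      have h6 : τ x * ((χ : MulAut G) x)⁻¹ ∈ Dt.NE (T n) := by
        have := mul_mem (h3 x).2 (inv_mem (h2 x hx))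
        convert this using 1
        group
      have h7 : τ x * ((χ : MulAut G) x)⁻¹ ∈ Dt.NE (T n) ⊓ T n := ⟨h6, h5⟩
      rw [Dt.inf (T n) hE, mem_bot] at h7
      exact mul_inv_eq_one.mp h7
    have hτC : τ ∈ Cp GM P' hP' := by
      refine ⟨hQP hτ, fun x hx => ?_⟩
      rw [h4 x hx]
      exact χ.2.2 x hx
    exact mem_BB.mpr ⟨⟨τ, hτC⟩, hτ, theta_ext _ _ h4⟩
  obtain ⟨H, hH1, hH2⟩ := kulikov_complement torsion_range hpure An hAmono hAcov
    (fun n => (Dt.NE (T n)).relIndex (_root_.commutator G))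
    (fun n => Nat.pos_of_ne_zero (Dt.rel (T n) (hTFN n))) hsep
  exact decomp_core M hP' hQP hH1 hH2

end Pool.Agent.FCG
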