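import Pool.Agent.FCG.Kul

/-!
# Main theorem
-/

namespace Pool.Agent.FCG

open Subgroup Cardinal Pool.Agent.Hhelper87.FC

universe u

variable {G : Type u} [Group G]

theorem fam_kulikov5 (hFC : IsFC G) (hX : ResX G) (T : ℕ → Subgroup G)
    (hTmono : Monotone T) (hTcov : ∀ g ∈ CC G, ∃ n, g ∈ T n) (e : ℕ → ℕ)
    (he : ∀ n, 0 < e n) (hTe : ∀ n, T n ⊓ PC G (e n) = ⊥) :
    Fam (center G) := by
  classical
  obtain ⟨Dt⟩ := exists_dat hX
  obtain ⟨cl, hcl1, hcl2, hcl3, hcl4, hcl5⟩ := exists_cl_pair5 hFC Dt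
  choose GM QM hGM hQM hM hM5 using hcl5
  have hQmono : ∀ {T T' : Set (G ⊕ MulAut G)}, T ⊆ T' → QM T ≤ QM T' := by
    intro T T' hT φ hφ
    rw [hQM] at hφ ⊢
    exact ⟨hφ.1, hcl2 _ _ hT hφ.2⟩
  have hQQ : ∀ S, QM S ≤ Qh G := fun S => (hM S).QM_le
  have hQc : ∀ S : Set (G ⊕ MulAut G), S.Countable → Countable (QM S) := by
    intro S hS
    have h2 : Countable (cl S) := (hcl3 _ hS).to_subtype
    let f : QM S → cl S := fun φ => ⟨Sum.inr φ.1, ((hQM _ _).mp φ.2).2⟩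
    have hf : Function.Injective f := by
      intro φ ψ h
      apply Subtype.ext
      exact Sum.inr_injective (congrArg Subtype.val h)
    exact hf.countable
  have key := fam_induction (U := G ⊕ MulAut G) (A := MulAut G) QM hQmono
    (by
      intro S x hx
      obtain ⟨h1, h2⟩ := (hQM _ _).mp hx
      obtain ⟨F, hF, hxF⟩ := hcl4 _ _ h2
      exact ⟨F, hF, (hQM _ _).mpr ⟨h1, hxF⟩⟩)
    (fun {S S'} hS => decomp_kulikov5 (hM S) (hM5 S) (hQQ S') (hQmono hS) T hTmono hTcov e he hTe)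
    (fun S hS => hall (hQc S hS) (isFC_of_le_Qh (hQQ S)) (torsion_of_le_Qh (hQQ S))
      (residuallyFinite_of_le_Qh hFC (hQQ S)))
  let S : Set (G ⊕ MulAut G) := Set.range Sum.inl
  have hconj : ∀ g : G, MulAut.conj g ∈ QM S := by
    intro g
    apply (hM S).conj
    rw [hGM]
    exact hcl1 _ ⟨g, rfl⟩
  let f : G →* QM S := (MulAut.conj : G →* MulAut G).codRestrict (QM S) hconj
  have h1 := (key S).comap f
  have h2 : (⊥ : Subgroup (QM S)).comap f = center G := by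
    rw [MonoidHom.comap_bot, ← conj_ker]
    ext g
    rw [MonoidHom.mem_ker, MonoidHom.mem_ker]
    constructor
    · intro h
      exact congrArg Subtype.val h
    · intro h
      exact Subtype.ext h
  rw [h2] at h1
  exact h1

theorem PC_le_PW (e : ℕ) : PC G e ≤ PW G e := by
  unfold PC
  rw [closure_le]
  rintro _ ⟨a, ha, rfl⟩
  exact pow_mem_PW ha.2 e

theorem fam_countable5 (hFC : IsFC G) (hX : ResX G) (hc : ((CC G : Subgroup G) : Set G).Countable) :
    Fam (center G) := by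
  classical
  have hcc : Countable (CC G) := hc.to_subtype
  obtain ⟨g, hg⟩ := exists_surjective_nat (CC G)
  have h1 : ∀ n, ∃ E : Subgroup G, FN E ∧ (g n : G) ∈ E ∧ E ≤ _root_.commutator G :=
    fun n => exists_FN_of_mem_commutator hFC (g n).2.2
  choose E hE1 hE2 hE3 using h1
  obtain ⟨T, hT0, hTs⟩ : ∃ T : ℕ → Subgroup G, T 0 = ⊥ ∧ ∀ n, T (n + 1) = T n ⊔ E n :=
    ⟨fun n => Nat.rec (motive := fun _ => Subgroup G) ⊥ (fun n T => T ⊔ E n) n, rfl,
      fun _ => rfl⟩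
  have hTFN : ∀ n, FN (T n) := by
    intro n
    induction n with
    | zero => rw [hT0]; exact FN.bot
    | succ n ih => rw [hTs]; exact ih.sup (hE1 _)
  have hTmono : Monotone T := by
    apply monotone_nat_of_le_succ
    intro n
    rw [hTs]
    exact le_sup_left
  have hTcov : ∀ x ∈ CC G, ∃ n, x ∈ T n := by
    intro x hx
    obtain ⟨n, hn⟩ := hg ⟨x, hx⟩
    refine ⟨n + 1, ?_⟩
    rw [hTs]
    have := hE2 n
    rw [hn] at this
    exact mem_sup_right this
  have h2 : ∀ n, ∃ e : ℕ, 0 < e ∧ T n ⊓ PW G e = ⊥ := fun n => exists_exponent hX (hTFN n)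
  choose e he1 he2 using h2
  refine fam_kulikov5 hFC hX T hTmono hTcov e he1 (fun n => ?_)
  rw [eq_bot_iff, ← he2 n]
  exact inf_le_inf_left _ (PC_le_PW _)

theorem fam_exponent5 (hFC : IsFC G) (hX : ResX G) {e : ℕ} (he : 0 < e)
    (hexp : ∀ a ∈ CC G, a ^ e = 1) : Fam (center G) := by
  refine fam_kulikov5 hFC hX (fun _ => ⊤) (fun _ _ _ => le_rfl)
    (fun g _ => ⟨0, mem_top g⟩) (fun _ => e) (fun _ => he) (fun _ => ?_)
  rw [top_inf_eq]
  unfold PC
  rw [eq_bot_iff, closure_le]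
  rintro _ ⟨a, ha, rfl⟩
  exact hexp a ha

theorem main3 (hFC : ∀ x : G, (conjugatesOf x).Finite)
    (hX : ∀ g : G, g ≠ 1 → ∃ N : Subgroup G, ∃ _ : N.Normal, g ∉ N ∧
      Finite (_root_.commutator (G ⧸ N))) :
    (∃ (ι : Type u) (F : ι → Type u) (_ : ∀ i, Group (F i)) (_ : ∀ i, Finite (F i))
      (f : (G ⧸ Subgroup.upperCentralSeries G 2) →* (∀ i, F i)), Function.Injective f ∧
        ∀ x, {i | f x i ≠ 1}.Finite) ∧
    ((Countable (center (G ⧸ center G)) ∨
      ((center G ⊓ _root_.commutator G : Subgroup G) : Set G).Countable ∨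
      (∃ e : ℕ, 0 < e ∧ ∀ a ∈ center G ⊓ _root_.commutator G, a ^ e = 1) ∨
      (∃ (T : ℕ → Subgroup G) (e : ℕ → ℕ), Monotone T ∧
        (∀ g ∈ center G ⊓ _root_.commutator G, ∃ n, g ∈ T n) ∧ (∀ n, 0 < e n) ∧
        (∀ n, T n ⊓ Subgroup.closure {b | ∃ a ∈ center G ⊓ _root_.commutator G, a ^ e n = b}
          = ⊥))) →
    ∃ (ι : Type u) (F : ι → Type u) (_ : ∀ i, Group (F i)) (_ : ∀ i, Finite (F i))
      (f : (G ⧸ center G) →* (∀ i, F i)), Function.Injective f ∧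
        ∀ x, {i | f x i ≠ 1}.Finite) := by
  refine ⟨embedding_of_fam (fam_second hFC hX), ?_⟩
  intro h
  apply embedding_of_fam
  rcases h with h | h | ⟨e, he, h⟩ | ⟨T, e, h1, h2, h3, h4⟩
  · exact fam_countable_center hFC hX h
  · exact fam_countable5 hFC hX h
  · exact fam_exponent5 hFC hX he h
  · exact fam_kulikov5 hFC hX T h1 h2 e h3 h4

end Pool.Agent.FCG
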