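import Pool.Agent.FCG.Gamma

/-!
# `G / Z_2(G)` embeds in a direct product of finite groups
-/

namespace Pool.Agent.FCG

open Subgroup Cardinal Pool.Agent.Hhelper87.FC

universe u

variable {G : Type u} [Group G]

/-- The map `G → Qh G → Gam G`. -/
def toGam (hFC : IsFC G) : G →* Gam G :=
  (QuotientGroup.mk' (center (Qh G))).comp
    ((MulAut.conj : G →* MulAut G).codRestrict (Qh G) (conj_mem_Qh hFC))

theorem conj_mem_center_iff (hFC : IsFC G) (g : G) :
    (⟨MulAut.conj g, conj_mem_Qh hFC g⟩ : Qh G) ∈ center (Qh G) ↔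
      ∀ x, g * x * g⁻¹ * x⁻¹ ∈ center G := by
  constructor
  · intro h x
    have h1 := mem_center_iff.mp h ⟨MulAut.conj x, conj_mem_Qh hFC x⟩
    have h2 : MulAut.conj x * MulAut.conj g = MulAut.conj g * MulAut.conj x :=
      congrArg Subtype.val h1
    have h3 : MulAut.conj (g * x * g⁻¹ * x⁻¹) = (1 : MulAut G) := by
      rw [map_mul, map_mul, map_mul, map_inv, map_inv, ← h2]
      group
    rw [← conj_ker, MonoidHom.mem_ker]
    exact h3
  · intro h
    refine mk_central _ (fun x => ?_)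
    rw [MulAut.conj_apply]
    exact h x

theorem toGam_eq_one (hFC : IsFC G) (g : G) : toGam hFC g = 1 ↔
    ∀ x, g * x * g⁻¹ * x⁻¹ ∈ center G := by
  rw [← conj_mem_center_iff hFC]
  exact QuotientGroup.eq_one_iff _

theorem mem_second (g : G) : g ∈ Subgroup.upperCentralSeries G 2 ↔
    ∀ x, g * x * g⁻¹ * x⁻¹ ∈ center G := by
  have h := Subgroup.upperCentralSeries_one G
  constructor
  · intro hg x
    rw [← h]
    exact hg x
  · intro hg x
    have := hg x
    rw [← h] at this
    exact this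

theorem toGam_ker (hFC : IsFC G) : (toGam hFC).ker = Subgroup.upperCentralSeries G 2 := by
  ext g
  rw [MonoidHom.mem_ker, toGam_eq_one, mem_second]

/-- The countable-closure data is enough for a family on `Gam`. -/
theorem fam_second (hFC : IsFC G) (hX : ResX G) : Fam (Subgroup.upperCentralSeries G 2) := by
  classical
  obtain ⟨Dt⟩ := exists_dat hX
  obtain ⟨cl, hcl1, hcl2, hcl3, hcl4, hcl5⟩ := exists_cl_pair hFC Dt
  choose GM QM hGM hQM hM using hcl5
  have hQmono : ∀ {T T' : Set (G ⊕ MulAut G)}, T ⊆ T' → QM T ≤ QM T' := by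
    intro T T' hT φ hφ
    rw [hQM] at hφ ⊢
    exact ⟨hφ.1, hcl2 _ _ hT hφ.2⟩
  have hQc : ∀ S : Set (G ⊕ MulAut G), S.Countable → Countable (QM S) := by
    intro S hS
    have h2 : Countable (cl S) := (hcl3 _ hS).to_subtype
    let f : QM S → cl S := fun φ => ⟨Sum.inr φ.1, ((hQM _ _).mp φ.2).2⟩
    have hf : Function.Injective f := by
      intro φ ψ h
      apply Subtype.ext
      exact Sum.inr_injective (congrArg Subtype.val h)
    exact hf.countable
  have key := fam_induction (U := G ⊕ MulAut G) (A := Gam G) (fun S => img (QM S))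
    (fun hS => img_mono (hQmono hS))
    (by
      intro S x hx
      obtain ⟨φ, hφ, rfl⟩ := mem_img.mp hx
      obtain ⟨h1, h2⟩ := (hQM _ _).mp hφ
      obtain ⟨F, hF, hxF⟩ := hcl4 _ _ h2
      exact ⟨F, hF, mem_img.mpr ⟨φ, (hQM _ _).mpr ⟨h1, hxF⟩, rfl⟩⟩)
    (fun {S S'} hS => gamma_dec (hM S) hFC (hQmono hS))
    (fun S hS => fam_of_countable_img (QM S) (hQc S hS))
  let S : Set (G ⊕ MulAut G) := Set.range Sum.inl
  have hconj : ∀ g : G, toGam hFC g ∈ img (QM S) := by
    intro g
    refine mem_img.mpr ⟨⟨MulAut.conj g, conj_mem_Qh hFC g⟩, ?_, rfl⟩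
    apply (hM S).conj
    rw [hGM]
    exact hcl1 _ ⟨g, rfl⟩
  have h1 := (key S).comap ((toGam hFC).codRestrict (img (QM S)) hconj)
  have h2 : (⊥ : Subgroup (img (QM S))).comap ((toGam hFC).codRestrict (img (QM S)) hconj)
      = Subgroup.upperCentralSeries G 2 := by
    rw [MonoidHom.comap_bot, ← toGam_ker hFC]
    ext g
    rw [MonoidHom.mem_ker, MonoidHom.mem_ker]
    constructor
    · intro h
      exact congrArg Subtype.val h
    · intro h
      exact Subtype.ext h
  rw [h2] at h1
  exact h1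

end Pool.Agent.FCG
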