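import Pool.Agent.FCG.Ind

/-!
# Closed pairs and the centre of the group of locally inner automorphisms

For a closed pair `(GM, QM)` (of any size) the group `Qh G` is the product of `QM`, the centre of
`Qh G` and the pointwise fixator of `GM`; hence `QM` becomes a direct factor modulo the centre.
-/

namespace Pool.Agent.FCG

open Subgroup Cardinal Pool.Agent.Hhelper87.FC

universe u

variable {G : Type u} [Group G]

/-- Central displacement everywhere implies central in `Qh G`. -/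
theorem comm_of_central {χ p : MulAut G} (hχ : ∀ x, χ x * x⁻¹ ∈ center G)
    (hp : LI p) : χ * p = p * χ := by
  ext x
  rw [MulAut.mul_apply, MulAut.mul_apply]
  have h2 : p (χ x) = (χ x * x⁻¹) * p x := by
    have h3 : χ x = (χ x * x⁻¹) * x := by group
    conv_lhs => rw [h3, map_mul, hp.center (hχ x)]
  obtain ⟨g, hg⟩ := hp {x}
  have h4 : p x = g * x * g⁻¹ := hg x (by simp)
  have h5 := mem_center_iff.mp (hχ g)
  have h6 := mem_center_iff.mp (hχ x)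
  rw [h2, h4, map_mul, map_mul, map_inv]
  have e1 : χ g = (χ g * g⁻¹) * g := by group
  have e2 : χ x = (χ x * x⁻¹) * x := by group
  set u := χ g * g⁻¹ with hu
  set v := χ x * x⁻¹ with hv
  rw [e1, e2]
  calc u * g * (v * x) * (u * g)⁻¹ = u * (g * v * x * g⁻¹) * u⁻¹ := by group
    _ = (g * v * x * g⁻¹) * u * u⁻¹ := by rw [h5]
    _ = (g * v) * x * g⁻¹ := by group
    _ = (v * g) * x * g⁻¹ := by rw [h6]
    _ = v * (g * x * g⁻¹) := by group

variable {Dt : Dat G} {GM : Subgroup G} {QM : Subgroup (MulAut G)}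

/-- every element of `Qh G` agrees on `GM` with one whose displacement is inside `GM`. -/
theorem exists_same (M : ClosedPair Dt GM QM) (hFC : IsFC G) {χ : MulAut G}
    (hχ : χ ∈ Qh G) : ∃ E : Subgroup G, FN E ∧ E ≤ GM ∧ ∃ ψ ∈ D E, ∀ x ∈ GM, ψ x = χ x := by
  classical
  obtain ⟨E, hE, hEM, h1⟩ := M.exists_E hχ
  have hχLI := LI_of_mem_Qh hχ
  refine ⟨E, hE, hEM, ?_⟩
  obtain ⟨ψ, hψ, h2⟩ := compactness hFC (fun x => {y | y * x⁻¹ ∈ E ∧ (x ∈ GM → y = χ x)}) (by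
    intro F
    let F0 : Finset G := F.filter (fun x => x ∈ GM)
    have hF0 : (F0 : Set G) ⊆ GM := by
      intro x hx
      exact (Finset.mem_filter.mp hx).2
    obtain ⟨g, hg⟩ := hχLI F0
    obtain ⟨g', hg'M, hg'⟩ := M.bstar F0 hF0 g
    obtain ⟨φ, hφ, h2⟩ := (M.g1 E hE hEM F0 hF0 g' hg'M).use hχLI (by
      intro x hx
      refine ⟨h1 x hx, fun hxF => ?_⟩
      rw [hg x hxF, hg' x hxF])
    obtain ⟨k, hk⟩ := (LI_of_mem_Qh (M.QM_le hφ)) F
    refine ⟨k, fun x hx => ?_⟩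
    rw [← hk x hx]
    refine ⟨(h2 x).1, fun hxM => ?_⟩
    have hxF : x ∈ F0 := Finset.mem_filter.mpr ⟨hx, hxM⟩
    rw [(h2 x).2 hxF, hg x hxF, hg' x hxF])
  exact ⟨ψ, ⟨hψ, fun x => (h2 x).1⟩, fun x hx => (h2 x).2 hx⟩

/-- The basic factorisation. -/
theorem factor3 (M : ClosedPair Dt GM QM) (hFC : IsFC G) {χ : MulAut G}
    (hχ : χ ∈ Qh G) : ∃ φ ∈ QM, ∃ z ∈ Qh G, (∀ x, z x * x⁻¹ ∈ center G) ∧
      ∃ k ∈ Qh G, (∀ x ∈ GM, k x = x) ∧ χ = φ * z * k := by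
  classical
  obtain ⟨E, hE, hEM, ψ, hψ, h1⟩ := exists_same M hFC hχ
  have hψQ : ψ ∈ Qh G := ⟨E, hE, hψ⟩
  have hψLI := hψ.1
  obtain ⟨g, hg⟩ := hψLI (Dt.FE E)
  have hFM := M.ffe E hE hEM
  obtain ⟨g', hg'M, hg'⟩ := M.bstar (Dt.FE E) hFM g
  obtain ⟨φ, hφ, h2⟩ := (M.g1 E hE hEM (Dt.FE E) hFM g' hg'M).use hψLI (by
    intro x hx
    refine ⟨hψ.2 x, fun hxF => ?_⟩
    rw [hg x hxF, hg' x hxF])
  have hφQ : φ ∈ Qh G := M.QM_le hφ
  have hφD : φ ∈ D E := ⟨LI_of_mem_Qh hφQ, fun x => (h2 x).1⟩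
  have hχD : φ⁻¹ * ψ ∈ D E := mul_mem (inv_mem hφD) hψ
  have h4 : ∀ x ∈ Dt.FE E, (φ⁻¹ * ψ) x * x⁻¹ = 1 := by
    intro x hxF
    have h5 := (h2 x).2 hxF
    have h6 : ψ x = φ x := by rw [h5, hg x hxF, hg' x hxF]
    rw [MulAut.mul_apply, h6, MulAut.inv_apply_self, mul_inv_cancel]
  have hn := Dt.normal E hE
  refine ⟨φ, hφ, φ⁻¹ * ψ, ⟨E, hE, hχD⟩, fun x => ?_, ψ⁻¹ * χ, mul_mem (inv_mem hψQ) hχ,
    fun x hx => ?_, by group⟩
  · have h7 := Dt.fe E hE _ hχD.1 (by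
      intro x hxF g
      rw [h4 x hxF]
      simp [one_mem]) x
    exact inter_ZN_le_center hE.1 (Dt.inf E hE) (hχD.2 x) (mem_ZN.mpr h7)
  · rw [MulAut.mul_apply, ← h1 x hx, MulAut.inv_apply_self]

/-- The fixator of `GM` commutes with `QM`. -/
theorem comm_fix (M : ClosedPair Dt GM QM) {k p : MulAut G} (hk : k ∈ Qh G)
    (hfix : ∀ x ∈ GM, k x = x) (hp : p ∈ QM) : k * p = p * k := by
  have hpLI := LI_of_mem_Qh (M.QM_le hp)
  have hkLI := LI_of_mem_Qh hk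
  have hkinv : ∀ x ∈ GM, (k⁻¹ : MulAut G) x = x := by
    intro x hx
    conv_lhs => rw [← hfix x hx]
    rw [MulAut.inv_apply_self]
  have h2 : k * p * k⁻¹ * p⁻¹ = 1 := by
    apply M.dsep
    · exact mul_mem (M.enorm p hp k hk) (inv_mem hp)
    · intro x hx
      have hx1 : (p⁻¹ : MulAut G) x ∈ GM := M.LI_mem (LI_inv hpLI) hx
      change k (p ((k⁻¹ : MulAut G) ((p⁻¹ : MulAut G) x))) = x
      rw [hkinv _ hx1, MulAut.apply_inv_self, hfix x hx]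
  calc k * p = (k * p * k⁻¹ * p⁻¹) * (p * k) := by group
    _ = p * k := by rw [h2, one_mul]

/-! ### The quotient of `Qh G` by its centre -/

/-- `Qh G` modulo its centre. -/
abbrev Gam (G : Type u) [Group G] : Type u := Qh G ⧸ center (Qh G)

/-- The image of a subgroup in `Gam G`. -/
def img (Q : Subgroup (MulAut G)) : Subgroup (Gam G) :=
  (Q.subgroupOf (Qh G)).map (QuotientGroup.mk' (center (Qh G)))

theorem mem_img {Q : Subgroup (MulAut G)} {x : Gam G} :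
    x ∈ img Q ↔ ∃ φ : Qh G, (φ : MulAut G) ∈ Q ∧ (φ : Gam G) = x := by
  constructor
  · rintro ⟨φ, hφ, h⟩
    exact ⟨φ, hφ, h⟩
  · rintro ⟨φ, hφ, h⟩
    exact ⟨φ, hφ, h⟩

theorem img_mono {Q Q' : Subgroup (MulAut G)} (h : Q ≤ Q') : img Q ≤ img Q' := by
  intro x hx
  rw [mem_img] at hx ⊢
  obtain ⟨φ, hφ, h1⟩ := hx
  exact ⟨φ, h hφ, h1⟩

/-- The pointwise fixator of `GM` in `Qh G`. -/
def Fix (GM : Subgroup G) : Subgroup (MulAut G) where
  carrier := {k | k ∈ Qh G ∧ ∀ x ∈ GM, k x = x}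
  one_mem' := ⟨one_mem _, fun _ _ => rfl⟩
  mul_mem' := by
    rintro a b ⟨ha, ha'⟩ ⟨hb, hb'⟩
    refine ⟨mul_mem ha hb, fun x hx => ?_⟩
    rw [MulAut.mul_apply, hb' x hx, ha' x hx]
  inv_mem' := by
    rintro a ⟨ha, ha'⟩
    refine ⟨inv_mem ha, fun x hx => ?_⟩
    conv_lhs => rw [← ha' x hx]
    rw [MulAut.inv_apply_self]

theorem mem_Fix {k : MulAut G} : k ∈ Fix GM ↔ k ∈ Qh G ∧ ∀ x ∈ GM, k x = x := Iff.rfl

theorem mk_central {z : MulAut G} (hz : z ∈ Qh G) (hc : ∀ x, z x * x⁻¹ ∈ center G) :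
    (⟨z, hz⟩ : Qh G) ∈ center (Qh G) := by
  rw [mem_center_iff]
  intro p
  apply Subtype.ext
  exact (comm_of_central hc (LI_of_mem_Qh p.2)).symm

/-- A closed pair is a direct factor modulo the centre. -/
theorem gamma_dec (M : ClosedPair Dt GM QM) (hFC : IsFC G)
    {Q' : Subgroup (MulAut G)} (hQQ' : QM ≤ Q') :
    ∃ L : Subgroup (Gam G), L ≤ img Q' ∧ img QM ⊓ L = ⊥ ∧
      (∀ ψ ∈ img Q', ∃ φ ∈ img QM, ∃ l ∈ L, ψ = φ * l) ∧
      ∀ p ∈ img QM, ∀ l ∈ L, l * p = p * l := by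
  have hcomm : ∀ p ∈ img QM, ∀ l ∈ img (Fix GM), l * p = p * l := by
    intro p hp l hl
    obtain ⟨φ, hφ, rfl⟩ := mem_img.mp hp
    obtain ⟨k, hk, rfl⟩ := mem_img.mp hl
    have h1 : k * φ = φ * k := Subtype.ext (comm_fix M hk.1 hk.2 hφ)
    rw [← QuotientGroup.mk_mul, h1, QuotientGroup.mk_mul]
  have hdec : ∀ ψ : Qh G, ∃ φ ∈ img QM, ∃ l ∈ img (Fix GM), (ψ : Gam G) = φ * l := by
    intro ψ
    obtain ⟨φ, hφ, z, hz, hzc, k, hk, hkfix, heq⟩ := factor3 M hFC ψ.2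
    have hφQ := M.QM_le hφ
    refine ⟨((⟨φ, hφQ⟩ : Qh G) : Gam G), mem_img.mpr ⟨⟨φ, hφQ⟩, hφ, rfl⟩,
      ((⟨k, hk⟩ : Qh G) : Gam G), mem_img.mpr ⟨⟨k, hk⟩, ⟨hk, hkfix⟩, rfl⟩, ?_⟩
    have h1 : ψ = ⟨φ, hφQ⟩ * ⟨z, hz⟩ * ⟨k, hk⟩ := Subtype.ext heq
    have h2 : ((⟨z, hz⟩ : Qh G) : Gam G) = 1 :=
      (QuotientGroup.eq_one_iff _).mpr (mk_central hz hzc)
    rw [h1, QuotientGroup.mk_mul, QuotientGroup.mk_mul, h2, mul_one]
  refine ⟨img Q' ⊓ img (Fix GM), inf_le_left, ?_, ?_, fun p hp l hl => hcomm p hp l hl.2⟩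
  · rw [eq_bot_iff]
    rintro x ⟨hx1, -, hx2⟩
    rw [mem_bot]
    obtain ⟨φ, hφ, rfl⟩ := mem_img.mp hx1
    obtain ⟨k, hk, hkφ⟩ := mem_img.mp hx2
    rw [QuotientGroup.eq_one_iff]
    have hz : k⁻¹ * φ ∈ center (Qh G) := QuotientGroup.eq.mp hkφ
    set z := k⁻¹ * φ with hzdef
    have hφk : φ = k * z := by rw [hzdef]; group
    have hzc := mem_center_iff.mp hz
    rw [mem_center_iff]
    intro ψ
    obtain ⟨φ', hφ', z', hz', hzc', k', hk', hkfix', heq⟩ := factor3 M hFC ψ.2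
    have hφ'Q := M.QM_le hφ'
    have h1 : ψ = ⟨φ', hφ'Q⟩ * ⟨z', hz'⟩ * ⟨k', hk'⟩ := Subtype.ext heq
    -- `φ` commutes with the three factors
    have c1 : (⟨φ', hφ'Q⟩ : Qh G) * φ = φ * ⟨φ', hφ'Q⟩ := by
      have h2 : k * (⟨φ', hφ'Q⟩ : Qh G) = ⟨φ', hφ'Q⟩ * k :=
        Subtype.ext (comm_fix M hk.1 hk.2 hφ')
      rw [hφk]
      calc (⟨φ', hφ'Q⟩ : Qh G) * (k * z) = (⟨φ', hφ'Q⟩ * k) * z := by group
        _ = k * (⟨φ', hφ'Q⟩ * z) := by rw [← h2]; group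
        _ = k * (z * ⟨φ', hφ'Q⟩) := by rw [hzc]
        _ = k * z * ⟨φ', hφ'Q⟩ := by group
    have c2 : (⟨z', hz'⟩ : Qh G) * φ = φ * ⟨z', hz'⟩ :=
      (mem_center_iff.mp (mk_central hz' hzc') φ).symm
    have c3 : (⟨k', hk'⟩ : Qh G) * φ = φ * ⟨k', hk'⟩ :=
      Subtype.ext (comm_fix M hk' hkfix' hφ)
    rw [h1]
    calc ⟨φ', hφ'Q⟩ * ⟨z', hz'⟩ * ⟨k', hk'⟩ * φ
        = ⟨φ', hφ'Q⟩ * ⟨z', hz'⟩ * (⟨k', hk'⟩ * φ) := by group
      _ = ⟨φ', hφ'Q⟩ * (⟨z', hz'⟩ * φ) * ⟨k', hk'⟩ := by rw [c3]; group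
      _ = (⟨φ', hφ'Q⟩ * φ) * ⟨z', hz'⟩ * ⟨k', hk'⟩ := by rw [c2]; group
      _ = φ * (⟨φ', hφ'Q⟩ * ⟨z', hz'⟩ * ⟨k', hk'⟩) := by rw [c1]; group
  · intro ψ hψ
    obtain ⟨ψ', hψ', rfl⟩ := mem_img.mp hψ
    obtain ⟨φ, hφ, l, hl, heq⟩ := hdec ψ'
    refine ⟨φ, hφ, l, ⟨?_, hl⟩, heq⟩
    have h1 : l = φ⁻¹ * (ψ' : Gam G) := by rw [heq]; group
    rw [h1]
    exact (img Q').mul_mem ((img Q').inv_mem (img_mono hQQ' hφ)) hψ

/-! ### `Gam G` is a torsion, residually finite FC-group -/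

theorem isFC_quot {H : Type u} [Group H] (h : IsFC H) (N : Subgroup H) [N.Normal] :
    IsFC (H ⧸ N) := by
  intro q
  obtain ⟨x, rfl⟩ := QuotientGroup.mk_surjective q
  refine ((h x).image (fun y : H => (y : H ⧸ N))).subset ?_
  intro y hy
  obtain ⟨c, rfl⟩ := isConj_iff.mp hy
  obtain ⟨c, rfl⟩ := QuotientGroup.mk_surjective c
  exact ⟨c * x * c⁻¹, conj_mem_conjugatesOf c x, rfl⟩

theorem isFC_sub {H : Type u} [Group H] (h : IsFC H) (K : Subgroup H) : IsFC K := by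
  intro k
  refine ((h (k : H)).preimage (Subtype.val_injective.injOn)).subset ?_
  intro y hy
  obtain ⟨c, rfl⟩ := isConj_iff.mp hy
  exact conj_mem_conjugatesOf (c : H) (k : H)

theorem resfin_centerQuot {H : Type u} [Group H] (h : IsFC H) (q : H ⧸ center H) (hq : q ≠ 1) :
    ∃ R : Subgroup (H ⧸ center H), R.Normal ∧ R.FiniteIndex ∧ q ∉ R := by
  obtain ⟨x, rfl⟩ := QuotientGroup.mk_surjective q
  have hx : x ∉ center H := fun hx => hq ((QuotientGroup.eq_one_iff x).mpr hx)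
  have hy : ∃ y, y * x ≠ x * y := by
    by_contra hcon
    push Not at hcon
    exact hx (mem_center_iff.mpr hcon)
  obtain ⟨y, hy⟩ := hy
  let R : Subgroup H := centralizer (conjugatesOf y)
  have hRn : R.Normal := by
    refine ⟨fun n hn g => ?_⟩
    rw [mem_centralizer_iff] at hn ⊢
    intro c hc
    have hc' : g⁻¹ * c * g ∈ conjugatesOf y := by
      have h1 : IsConj y c := hc
      exact h1.trans (isConj_iff.mpr ⟨g⁻¹, by group⟩)
    have h2 := hn _ hc'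
    calc c * (g * n * g⁻¹) = g * ((g⁻¹ * c * g) * n) * g⁻¹ := by group
      _ = g * (n * (g⁻¹ * c * g)) * g⁻¹ := by rw [h2]
      _ = g * n * g⁻¹ * c := by group
  have hRf : R.FiniteIndex := by
    have hfin : Finite (conjugatesOf y) := (h y).to_subtype
    have h1 : (⨅ c : conjugatesOf y, centralizer {(c : H)}).FiniteIndex :=
      finiteIndex_iInf (fun c => finiteIndex_centralizer (h _))
    have h2 : (⨅ c : conjugatesOf y, centralizer {(c : H)}) ≤ R := by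
      intro z hz
      rw [mem_centralizer_iff]
      intro c hc
      have := mem_iInf.mp hz ⟨c, hc⟩
      exact (mem_centralizer_singleton_iff.mp this).symm
    exact finiteIndex_of_le h2
  have hcR : center H ≤ R := center_le_centralizer _
  refine ⟨R.map (QuotientGroup.mk' (center H)), hRn.map _ (QuotientGroup.mk'_surjective _), ?_, ?_⟩
  · refine ⟨fun h0 => ?_⟩
    have h1 : (R.map (QuotientGroup.mk' (center H))).index ∣ R.index :=
      R.index_map_dvd (QuotientGroup.mk'_surjective _)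
    rw [h0, zero_dvd_iff] at h1
    exact hRf.index_ne_zero h1
  · rintro ⟨r, hr, hrx⟩
    have h1 : r⁻¹ * x ∈ center H := QuotientGroup.eq.mp hrx
    have h2 : x ∈ R := by
      have h3 := mul_mem hr (hcR h1)
      rwa [mul_inv_cancel_left] at h3
    exact hy (mem_centralizer_iff.mp h2 y mem_conjugatesOf_self)

theorem resfin_sub {H : Type u} [Group H]
    (h : ∀ q : H, q ≠ 1 → ∃ R : Subgroup H, R.Normal ∧ R.FiniteIndex ∧ q ∉ R)
    (K : Subgroup H) (q : K) (hq : q ≠ 1) :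
    ∃ R : Subgroup K, R.Normal ∧ R.FiniteIndex ∧ q ∉ R := by
  obtain ⟨R, h1, h2, h3⟩ := h (q : H) (fun h => hq (Subtype.ext h))
  exact ⟨R.subgroupOf K, inferInstance, inferInstance, fun h => h3 h⟩

theorem fam_of_countable_img (Q : Subgroup (MulAut G)) (hQ : Countable Q) :
    Fam (⊥ : Subgroup (img Q)) := by
  have hFCQ : IsFC (Qh G) := isFC_of_le_Qh le_rfl
  have hFCΓ : IsFC (Gam G) := isFC_quot hFCQ _
  have htor : ∀ q : Gam G, IsOfFinOrder q := by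
    intro q
    obtain ⟨x, rfl⟩ := QuotientGroup.mk_surjective q
    exact MonoidHom.isOfFinOrder (QuotientGroup.mk' (center (Qh G)))
      (torsion_of_le_Qh (K := Qh G) le_rfl x)
  have hc : Countable (img Q) := by
    have h1 : ∀ x : img Q, ∃ φ : Qh G, (φ : MulAut G) ∈ Q ∧ (φ : Gam G) = x :=
      fun x => mem_img.mp x.2
    choose f hf1 hf2 using h1
    have hinj : Function.Injective (fun x : img Q => (⟨(f x : MulAut G), hf1 x⟩ : Q)) := by
      intro x y hxy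
      have h3 : (f x : MulAut G) = f y := congrArg (fun t : Q => (t : MulAut G)) hxy
      have h2 : f x = f y := Subtype.ext h3
      apply Subtype.ext
      rw [← hf2 x, ← hf2 y, h2]
    exact hinj.countable
  refine hall hc (isFC_sub hFCΓ _) ?_ (resfin_sub (resfin_centerQuot hFCQ) _)
  intro q
  rw [← Submonoid.isOfFinOrder_coe (H := (img Q).toSubmonoid)]
  exact htor q

end Pool.Agent.FCG
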