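import Pool.Agent.Hhelper87.FC.Main2

/-!
# An induction principle for families of subgroups

`P : Set U → Subgroup A` is monotone and finitary, for `S ⊆ S'` the subgroup `P S` is a direct
factor of `P S'`, and `P S` has a point-finite separating family of finite quotients whenever `S`
is countable.  Then every `P S` has one.
-/

namespace Pool.Agent.FCG

open Subgroup Cardinal Pool.Agent.Hhelper87.FC

universe u

theorem fam_induction {U A : Type u} [Group A] (P : Set U → Subgroup A)
    (hmono : ∀ {S S' : Set U}, S ⊆ S' → P S ≤ P S')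
    (hfin : ∀ (S : Set U) (x : A), x ∈ P S → ∃ F : Finset U, (F : Set U) ⊆ S ∧ x ∈ P F)
    (hdec : ∀ {S S' : Set U}, S ⊆ S' → ∃ L : Subgroup A, L ≤ P S' ∧ P S ⊓ L = ⊥ ∧
      (∀ ψ ∈ P S', ∃ φ ∈ P S, ∃ l ∈ L, ψ = φ * l) ∧ ∀ p ∈ P S, ∀ l ∈ L, l * p = p * l)
    (hcount : ∀ S : Set U, S.Countable → Fam (⊥ : Subgroup (P S))) :
    ∀ S : Set U, Fam (⊥ : Subgroup (P S)) := by
  classical
  have key : ∀ κ : Cardinal.{u}, ∀ S : Set U, #S = κ → Fam (⊥ : Subgroup (P S)) := by
    intro κ
    induction κ using WellFoundedLT.induction with
    | ind κ ih =>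
      intro S hS
      rcases le_or_gt κ ℵ₀ with hκ | hκ
      · exact hcount S (by rw [← Cardinal.le_aleph0_iff_set_countable, hS]; exact hκ)
      · let I : Type u := κ.ord.ToType
        have hI : #I = #S := by rw [mk_ord_toType, hS]
        obtain ⟨s⟩ := Cardinal.eq.mp hI
        have hIne : Nonempty I := by
          rw [← mk_ne_zero_iff, mk_ord_toType]
          intro h0
          rw [h0] at hκ
          exact absurd hκ (not_lt.mpr zero_le)
        have hcount : ∀ i : I, #(Set.Iic i) < κ := by
          intro i
          have h1 : #(Set.Iio i) < κ := by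
            have := mk_Iio_lt i (by simp [I])
            simpa [I] using this
          have h2 : Set.Iic i = Set.Iio i ∪ {i} := by
            ext j
            simp [le_iff_lt_or_eq]
          rw [h2]
          refine lt_of_le_of_lt (mk_union_le _ _) ?_
          refine add_lt_of_lt hκ.le h1 ?_
          rw [mk_singleton]
          exact lt_of_lt_of_le one_lt_aleph0 hκ.le
        let Si : I → Set U := fun i => (fun j => (s j).1) '' Set.Iic i
        let S' : I → Set U := fun i => (fun j => (s j).1) '' Set.Iio i
        have hSicard : ∀ i, #(Si i) < κ := fun i => lt_of_le_of_lt mk_image_le (hcount i)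
        have hS'S : ∀ i, S' i ⊆ Si i := fun i => Set.image_mono Set.Iio_subset_Iic_self
        have hSS' : ∀ {i j : I}, j < i → Si j ⊆ S' i := fun {i j} hij =>
          Set.image_mono (Set.Iic_subset_Iio.mpr hij)
        let Pp : I → Subgroup A := fun i => P (Si i)
        let Pm : I → Subgroup A := fun i => if ∃ j, j < i then P (S' i) else ⊥
        have hbound : ∀ (i : I), (∃ j, j < i) → ∀ F : Finset U,
            (F : Set U) ⊆ S' i → ∃ j, j < i ∧ (F : Set U) ⊆ Si j := by
          intro i hi F
          induction F using Finset.induction_on with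
          | empty =>
            intro _
            obtain ⟨j, hj⟩ := hi
            exact ⟨j, hj, by simp⟩
          | insert a F ha ih =>
            intro hF
            rw [Finset.coe_insert] at hF
            obtain ⟨j, hj, hjF⟩ := ih (fun x hx => hF (Or.inr hx))
            obtain ⟨k, hk, hka⟩ := hF (Or.inl rfl)
            refine ⟨max j k, max_lt hj hk, ?_⟩
            rw [Finset.coe_insert]
            rintro x (rfl | hx)
            · exact ⟨k, le_max_right j k, hka⟩
            · exact (Set.image_mono (Set.Iic_subset_Iic.mpr (le_max_left j k))) (hjF hx)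
        have hbound2 : ∀ F : Finset U, (F : Set U) ⊆ S → ∃ j, (F : Set U) ⊆ Si j := by
          intro F
          induction F using Finset.induction_on with
          | empty =>
            intro _
            obtain ⟨j⟩ := hIne
            exact ⟨j, by simp⟩
          | insert a F ha ih =>
            intro hF
            rw [Finset.coe_insert] at hF
            obtain ⟨j, hjF⟩ := ih (fun x hx => hF (Or.inr hx))
            have haS : a ∈ S := hF (Or.inl rfl)
            obtain ⟨k, hk⟩ := s.surjective ⟨a, haS⟩
            refine ⟨max j k, ?_⟩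
            rw [Finset.coe_insert]
            rintro x (rfl | hx)
            · exact ⟨k, Set.mem_Iic.mpr (le_max_right j k), by simp only [hk]⟩
            · exact (Set.image_mono (Set.Iic_subset_Iic.mpr (le_max_left j k))) (hjF hx)
        have hPm : ∀ i x, x ∈ Pm i ↔ x = 1 ∨ ∃ j, j < i ∧ x ∈ Pp j := by
          intro i x
          by_cases hi : ∃ j, j < i
          · have h1 : Pm i = P (S' i) := if_pos hi
            rw [h1]
            constructor
            · intro hx
              right
              obtain ⟨F, hF, hxF⟩ := hfin _ _ hx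
              obtain ⟨j, hj, hjF⟩ := hbound i hi F hF
              exact ⟨j, hj, hmono hjF hxF⟩
            · rintro (rfl | ⟨j, hj, hx⟩)
              · exact one_mem _
              · exact hmono (hSS' hj) hx
          · have h1 : Pm i = ⊥ := if_neg hi
            rw [h1, mem_bot]
            constructor
            · exact fun h => Or.inl h
            · rintro (h | ⟨j, hj, -⟩)
              · exact h
              · exact absurd ⟨j, hj⟩ hi
        have hL : ∀ i, ∃ L : Subgroup A, L ≤ Pp i ∧ Pm i ⊓ L = ⊥ ∧
            (∀ ψ ∈ Pp i, ∃ φ ∈ Pm i, ∃ l ∈ L, ψ = φ * l) ∧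
            ∀ p ∈ Pm i, ∀ l ∈ L, l * p = p * l := by
          intro i
          by_cases hi : ∃ j, j < i
          · have h1 : Pm i = P (S' i) := if_pos hi
            rw [h1]
            exact hdec (hS'S i)
          · have h1 : Pm i = ⊥ := if_neg hi
            rw [h1]
            refine ⟨Pp i, le_rfl, by simp, ?_, ?_⟩
            · exact fun ψ hψ => ⟨1, one_mem _, ψ, hψ, by simp⟩
            · intro p hp l _
              rw [mem_bot] at hp
              rw [hp]
              simp
        choose L hL1 hL2 hL3 hL4 using hL
        have hfam : ∀ i, Fam (⊥ : Subgroup (L i)) := by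
          intro i
          have h1 := ih _ (hSicard i) (Si i) rfl
          have h2 := h1.comap (Subgroup.inclusion (hL1 i))
          have h3 : (⊥ : Subgroup (P (Si i))).comap (Subgroup.inclusion (hL1 i)) = ⊥ := by
            rw [MonoidHom.comap_bot]
            exact (MonoidHom.ker_eq_bot_iff _).mpr (Subgroup.inclusion_injective (hL1 i))
          rw [h3] at h2
          exact h2
        have hf : ∀ h : P S, ∃ i, (P S).subtype h ∈ Pp i := by
          intro h
          obtain ⟨F, hF, hxF⟩ := hfin _ _ h.2
          obtain ⟨j, hjF⟩ := hbound2 F hF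
          exact ⟨j, hmono hjF hxF⟩
        have hfinal := assembly (P S).subtype hPm hL1 hL3 hL2 hL4 hf hfam
        rw [ker_subtype] at hfinal
        exact hfinal
  exact fun S => key _ S rfl

/-- Two families can be put together. -/
theorem fam_inf {H : Type u} [Group H] {Z Z' : Subgroup H} (h : Fam Z) (h' : Fam Z') :
    Fam (Z ⊓ Z') := by
  obtain ⟨ι, K, h1, h2, h3, h4, h5⟩ := h
  obtain ⟨ι', K', h1', h2', h3', h4', h5'⟩ := h'
  refine ⟨ι ⊕ ι', Sum.elim K K', ?_, ?_, ?_, ?_, ?_⟩
  · rintro (i | i)
    · exact h1 i
    · exact h1' i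
  · rintro (i | i)
    · exact h2 i
    · exact h2' i
  · intro g
    refine (((h3 g).image Sum.inl).union ((h3' g).image Sum.inr)).subset ?_
    rintro (i | i) hi
    · exact Or.inl ⟨i, hi, rfl⟩
    · exact Or.inr ⟨i, hi, rfl⟩
  · intro g hg
    by_cases hZ : g ∈ Z
    · have hZ' : g ∉ Z' := fun h => hg ⟨hZ, h⟩
      obtain ⟨i, hi⟩ := h4' g hZ'
      exact ⟨Sum.inr i, hi⟩
    · obtain ⟨i, hi⟩ := h4 g hZ
      exact ⟨Sum.inl i, hi⟩
  · rintro g ⟨hg, hg'⟩ (i | i)
    · exact h5 g hg i
    · exact h5' g hg' i

end Pool.Agent.FCG
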