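import Pool.Agent.FCG.Second

/-!
# A Kulikov type condition on `Z(G) ∩ G'`
-/

namespace Pool.Agent.FCG

open Subgroup Cardinal Pool.Agent.Hhelper87.FC
open scoped IsMulCommutative

universe u

variable {G : Type u} [Group G]

/-- The central part of the derived subgroup. -/
def CC (G : Type u) [Group G] : Subgroup G := center G ⊓ _root_.commutator G

/-- The subgroup generated by the `e`-th powers of the elements of `Z(G) ∩ G'`. -/
def PC (G : Type u) [Group G] (e : ℕ) : Subgroup G :=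
  closure {b | ∃ a ∈ CC G, a ^ e = b}

theorem PC_le (e : ℕ) : PC G e ≤ center G := by
  unfold PC
  rw [closure_le]
  rintro _ ⟨a, ha, rfl⟩
  exact pow_mem ha.1 e

/-- the demand used for the Kulikov condition -/
def R5 (E : Subgroup G) (m : MulAut G) (e : ℕ) (x : G) : Set G :=
  {y | y * x⁻¹ ∈ E ∧ y * (m x)⁻¹ ∈ PC G e}

theorem req5 (hFC : IsFC G) : Req (fun (F : Finset (G ⊕ MulAut G)) (T : Set (G ⊕ MulAut G)) =>
      ∀ p ∈ ({E : Subgroup G | ∀ x ∈ E, (Sum.inl x : G ⊕ MulAut G) ∈ F} ×ˢ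
        ({φ : MulAut G | (Sum.inr φ : G ⊕ MulAut G) ∈ F} ×ˢ (Set.univ : Set ℕ))),
        (FN p.1 → Good' T (R5 p.1 p.2.1 p.2.2))) :=
  Req.params _ (fun F => ((finite_inSub F).countable.prod ((finite_inr F).countable.prod
    Set.countable_univ))) _
    (fun p T T' hT h hp => (h hp).mono hT) (fun p => by
      by_cases hE : FN p.1
      · obtain ⟨T, h1, h2⟩ := exists_good' hFC hE (R5 p.1 p.2.1 p.2.2) (fun x y hy => hy.1)
        exact ⟨T, h1, fun _ => h2⟩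
      · exact ⟨∅, Set.countable_empty, fun h => absurd h hE⟩)

/-- The closure operator with the additional demand. -/
theorem exists_cl_pair5 (hFC : IsFC G) (Dt : Dat G) :
    ∃ cl : Set (G ⊕ MulAut G) → Set (G ⊕ MulAut G),
      (∀ S, S ⊆ cl S) ∧ (∀ S S', S ⊆ S' → cl S ⊆ cl S') ∧
      (∀ S, S.Countable → (cl S).Countable) ∧
      (∀ S x, x ∈ cl S → ∃ F : Finset (G ⊕ MulAut G), (F : Set (G ⊕ MulAut G)) ⊆ S ∧
        x ∈ cl (F : Set (G ⊕ MulAut G))) ∧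
      (∀ S, ∃ (GM : Subgroup G) (QM : Subgroup (MulAut G)),
        (∀ x, x ∈ GM ↔ Sum.inl x ∈ cl S) ∧ (∀ φ, φ ∈ QM ↔ φ ∈ Qh G ∧ Sum.inr φ ∈ cl S) ∧
        ClosedPair Dt GM QM ∧
        ∀ E, FN E → E ≤ GM → ∀ m ∈ QM, ∀ e : ℕ, Good (GM : Set G) QM (R5 E m e)) := by
  classical
  obtain ⟨cl, hcl1, hcl2, hcl3, hcl4, hcl5⟩ := exists_cl_pair hFC Dt
  have hr1 : Req (fun (F : Finset (G ⊕ MulAut G)) (T : Set (G ⊕ MulAut G)) =>
      cl (F : Set (G ⊕ MulAut G)) ⊆ T) :=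
    { mono := fun F T T' hT h => h.trans hT
      wit := fun F => ⟨cl F, hcl3 _ F.countable_toSet, le_rfl⟩ }
  have hr := hr1.and (req5 hFC)
  obtain ⟨cl', h1, h2, h3, h4, h5⟩ := exists_cl hr
  have hfix : ∀ S, cl (cl' S) = cl' S := by
    intro S
    apply Set.Subset.antisymm _ (hcl1 _)
    intro x hx
    obtain ⟨F, hF, hxF⟩ := hcl4 _ _ hx
    exact (h3 S F hF).1 hxF
  refine ⟨cl', h1, h2, h4, h5, fun S => ?_⟩
  obtain ⟨GM, QM, hGM, hQM, hM⟩ := hcl5 (cl' S)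
  rw [hfix] at hGM hQM
  refine ⟨GM, QM, hGM, hQM, hM, ?_⟩
  intro E hE hEM m hm k
  have hgood : ∀ R : G → Set G, Good' (cl' S) R → Good (GM : Set G) QM R := by
    intro R h
    rcases h with ⟨φ, h1, h2, h3⟩ | ⟨F, h1, h2⟩
    · exact Or.inl ⟨φ, (hQM φ).mpr ⟨h1, h2⟩, h3⟩
    · exact Or.inr ⟨F, fun x hx => (hGM x).mpr (h1 x hx), h2⟩
  apply hgood
  refine (h3 S (hE.2.toFinset.image Sum.inl ∪ {Sum.inr m}) ?_).2 (E, m, k) ⟨?_, ?_, trivial⟩ hE
  · intro z hz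
    rcases Finset.mem_union.mp (Finset.mem_coe.mp hz) with h | h
    · obtain ⟨x, hx, rfl⟩ := Finset.mem_image.mp h
      exact (hGM x).mp (hEM (by simpa using hx))
    · rw [Finset.mem_singleton.mp h]
      exact ((hQM m).mp hm).2
  · exact fun x hx => Finset.mem_union_left _ (Finset.mem_image_of_mem _
      (by simpa using hx))
  · exact Finset.mem_union_right _ (by simp)

variable {Dt : Dat G} {GM : Subgroup G} {QM : Subgroup (MulAut G)}

/-- Decomposition under a Kulikov type condition on `Z(G) ∩ G'`. -/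
theorem decomp_kulikov5 (M : ClosedPair Dt GM QM)
    (M5 : ∀ E, FN E → E ≤ GM → ∀ m ∈ QM, ∀ e : ℕ, Good (GM : Set G) QM (R5 E m e))
    {P' : Subgroup (MulAut G)}
    (hP' : P' ≤ Qh G) (hQP : QM ≤ P') (T : ℕ → Subgroup G)
    (hTmono : Monotone T) (hTcov : ∀ g ∈ CC G, ∃ n, g ∈ T n) (e : ℕ → ℕ)
    (he : ∀ n, 0 < e n) (hTe : ∀ n, T n ⊓ PC G (e n) = ⊥) :
    ∃ L : Subgroup (MulAut G), L ≤ P' ∧ QM ⊓ L = ⊥ ∧ (∀ ψ ∈ P', ∃ φ ∈ QM, ∃ l ∈ L, ψ = φ * l) ∧
      ∀ p ∈ QM, ∀ l ∈ L, l * p = p * l := by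
  classical
  have hpure := M.pureBB hP' hQP
  let An : ℕ → Subgroup (theta GM P' hP').range := fun n =>
    { carrier := {z | ∀ x : GM, ((z.1 x : center G) : G) ∈ T n}
      one_mem' := fun x => one_mem _
      mul_mem' := fun {a b} ha hb x => mul_mem (ha x) (hb x)
      inv_mem' := fun {a} ha x => inv_mem (ha x) }
  have hAmono : Monotone An := fun n n' hn z hz x => hTmono hn (hz x)
  have hAcov : ∀ z, ∃ n, z ∈ An n := by
    intro z
    obtain ⟨χ, rfl⟩ := MonoidHom.rangeRestrict_surjective _ z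
    obtain ⟨E, hE, hχE⟩ := hP' χ.2.1
    have h1 : ∀ g : G, g ∈ hE.2.toFinset → ∃ n, g ∈ CC G → g ∈ T n := by
      intro g _
      by_cases hg : g ∈ CC G
      · obtain ⟨n, hn⟩ := hTcov g hg
        exact ⟨n, fun _ => hn⟩
      · exact ⟨0, fun h => absurd h hg⟩
    choose! f hf using h1
    refine ⟨hE.2.toFinset.sup f, fun x => ?_⟩
    have h2 : (χ : MulAut G) (x : G) * (x : G)⁻¹ ∈ E := hχE.2 _
    have h3 : (χ : MulAut G) (x : G) * (x : G)⁻¹ ∈ hE.2.toFinset := hE.2.mem_toFinset.mpr h2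
    have h4 := hf _ h3 ⟨χ.2.2 x x.2, displacement_mem_commutator hχE.1 _⟩
    exact hTmono (Finset.le_sup h3) h4
  have hsep : ∀ n, ∀ z ∈ An n, ∀ c ∈ BB GM QM P' hP', ∀ y, z = c * y ^ e n →
      z ∈ BB GM QM P' hP' := by
    intro n z hz c hc y hzc
    obtain ⟨χ, rfl⟩ := MonoidHom.rangeRestrict_surjective _ z
    obtain ⟨E0, hE0, hE0M, h10⟩ := M.exists_E (hP' χ.2.1)
    let E : Subgroup G := E0 ⊓ (T n ⊓ center G)
    have hE : FN E := by
      refine ⟨⟨?_⟩, hE0.2.subset Set.inter_subset_left⟩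
      rintro g ⟨hg1, hg2, hg3⟩ k
      have h := mem_center_iff.mp hg3 k
      have h' : k * g * k⁻¹ = g := by rw [h]; group
      rw [h']
      exact ⟨hg1, hg2, hg3⟩
    have hEM : E ≤ GM := inf_le_left.trans hE0M
    have h1 : ∀ x ∈ GM, (χ : MulAut G) x * x⁻¹ ∈ E :=
      fun x hx => ⟨h10 x hx, hz ⟨x, hx⟩, χ.2.2 x hx⟩
    obtain ⟨φ, hφ, rfl⟩ := mem_BB.mp hc
    obtain ⟨ρ, rfl⟩ := MonoidHom.rangeRestrict_surjective _ y
    have h2 : ∀ x ∈ GM, (χ : MulAut G) x * ((φ : MulAut G) x)⁻¹ ∈ PC G (e n) := by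
      intro x hx
      have h3 := congrArg (fun t : (theta GM P' hP').range => ((t.1 ⟨x, hx⟩ : center G) : G)) hzc
      have h4 : (χ : MulAut G) x * x⁻¹ = ((φ : MulAut G) x * x⁻¹) *
          ((ρ : MulAut G) x * x⁻¹) ^ (e n) := h3
      have h5 : (ρ : MulAut G) x * x⁻¹ ∈ CC G :=
        ⟨ρ.2.2 x hx, displacement_mem_commutator (LI_of_mem_Qh (hP' ρ.2.1)) x⟩
      have h6 : ((ρ : MulAut G) x * x⁻¹) ^ (e n) ∈ PC G (e n) := subset_closure ⟨_, h5, rfl⟩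
      have h7 : (χ : MulAut G) x * ((φ : MulAut G) x)⁻¹
          = ((φ : MulAut G) x * x⁻¹) *
          ((ρ : MulAut G) x * x⁻¹) ^ (e n) * ((φ : MulAut G) x * x⁻¹)⁻¹ := by
        rw [← h4]
        group
      have h8 := mem_center_iff.mp (PC_le _ h6) ((φ : MulAut G) x * x⁻¹)
      rw [h7, h8, mul_inv_cancel_right]
      exact h6
    obtain ⟨τ, hτ, h3⟩ := (M5 E hE hEM φ hφ (e n)).use (LI_of_mem_Qh (hP' χ.2.1)) (by
      intro x hx
      exact ⟨h1 x hx, h2 x hx⟩)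
    have h4 : ∀ x ∈ GM, τ x = (χ : MulAut G) x := by
      intro x hx
      have h5 : τ x * ((χ : MulAut G) x)⁻¹ ∈ E := by
        have := mul_mem (h3 x).1 (inv_mem (h1 x hx))
        convert this using 1
        group
      have h6 : τ x * ((χ : MulAut G) x)⁻¹ ∈ PC G (e n) := by
        have := mul_mem (h3 x).2 (inv_mem (h2 x hx))
        convert this using 1
        group
      have h7 : τ x * ((χ : MulAut G) x)⁻¹ ∈ T n ⊓ PC G (e n) := ⟨h5.2.1, h6⟩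
      rw [hTe n, mem_bot] at h7
      exact mul_inv_eq_one.mp h7
    have hτC : τ ∈ Cp GM P' hP' := by
      refine ⟨hQP hτ, fun x hx => ?_⟩
      rw [h4 x hx]
      exact χ.2.2 x hx
    exact mem_BB.mpr ⟨⟨τ, hτC⟩, hτ, theta_ext _ _ h4⟩
  obtain ⟨H, hH1, hH2⟩ := kulikov_complement torsion_range hpure An hAmono hAcov e he hsep
  exact decomp_core M hP' hQP hH1 hH2

end Pool.Agent.FCG
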