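import Pool.Agent.FCG.Factor

/-!
# Groups for which the centre of `G / Z(G)` is countable
-/

namespace Pool.Agent.FCG

open Subgroup Cardinal Pool.Agent.Hhelper87.FC

universe u

variable {G : Type u} [Group G]

/-- A direct factor gives a retraction. -/
theorem exists_retraction {A : Type u} [Group A] {Q L P' : Subgroup A}
    (hdis : Q ⊓ L = ⊥) (hdec : ∀ ψ ∈ P', ∃ φ ∈ Q, ∃ l ∈ L, ψ = φ * l)
    (hcomm : ∀ p ∈ Q, ∀ l ∈ L, l * p = p * l) :
    ∃ r : P' →* Q, ∀ p : P', ∀ hp : (p : A) ∈ Q, r p = ⟨p, hp⟩ := by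
  classical
  have h1 : ∀ ψ : P', ∃ φ : Q, ∃ l ∈ L, (ψ : A) = φ * l := by
    intro ψ
    obtain ⟨φ, hφ, l, hl, h⟩ := hdec ψ ψ.2
    exact ⟨⟨φ, hφ⟩, l, hl, h⟩
  choose r l hl hr using h1
  have huniq : ∀ (φ φ' : Q) (l l' : A), l ∈ L → l' ∈ L → (φ : A) * l = φ' * l' → φ = φ' := by
    intro φ φ' l l' hl hl' h
    have h2 : (φ' : A)⁻¹ * φ = l' * l⁻¹ := by
      calc (φ' : A)⁻¹ * φ = (φ' : A)⁻¹ * (φ * l) * l⁻¹ := by group
        _ = (φ' : A)⁻¹ * (φ' * l') * l⁻¹ := by rw [h]
        _ = l' * l⁻¹ := by group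
    have h3 : (φ' : A)⁻¹ * φ ∈ Q ⊓ L := by
      refine ⟨Q.mul_mem (Q.inv_mem φ'.2) φ.2, ?_⟩
      rw [h2]
      exact L.mul_mem hl' (L.inv_mem hl)
    rw [hdis, mem_bot] at h3
    apply Subtype.ext
    exact (inv_mul_eq_one.mp h3).symm
  refine ⟨MonoidHom.mk' r ?_, ?_⟩
  · intro a b
    apply huniq _ _ (l (a * b)) (l a * l b) (hl _) (mul_mem (hl _) (hl _))
    rw [← hr, Subgroup.coe_mul, Subgroup.coe_mul]
    conv_lhs => rw [hr a, hr b]
    have := hcomm (r b) (r b).2 (l a) (hl a)
    calc (r a : A) * l a * (r b * l b) = r a * (l a * r b) * l b := by group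
      _ = r a * r b * (l a * l b) := by rw [this]; group
  · intro p hp
    apply huniq _ _ (l p) 1 (hl _) (one_mem _)
    change (r p : A) * l p = (p : A) * 1
    rw [← hr, mul_one]

/-- If the centre of `G / Z(G)` is countable, then `G / Z(G)` has a good family. -/
theorem fam_countable_center (hFC : IsFC G) (hX : ResX G)
    (hc : Countable (center (G ⧸ center G))) : Fam (center G) := by
  classical
  obtain ⟨Dt⟩ := exists_dat hX
  obtain ⟨cl, hcl1, hcl2, hcl3, hcl4, hcl5⟩ := exists_cl_pair hFC Dt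
  let S : Set (G ⊕ MulAut G) := Set.range (fun q : center (G ⧸ center G) => Sum.inl (q.1.out))
  have hS : S.Countable := Set.countable_range _
  obtain ⟨GM, QM, hGM, hQM, hM⟩ := hcl5 S
  have hclS := hcl3 S hS
  have hGMc : (GM : Set G).Countable := by
    have h1 := hclS.preimage_of_injOn (f := (Sum.inl : G → G ⊕ MulAut G))
      (Sum.inl_injective.injOn)
    refine h1.mono ?_
    intro x hx
    exact (hGM x).mp hx
  have hQMc : Countable QM := by
    have h2 : Countable (cl S) := hclS.to_subtype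
    let f : QM → cl S := fun φ => ⟨Sum.inr φ.1, ((hQM _).mp φ.2).2⟩
    have hf : Function.Injective f := by
      intro φ ψ h
      apply Subtype.ext
      exact Sum.inr_injective (congrArg Subtype.val h)
    exact hf.countable
  obtain ⟨L, hL1, hL2, hL3, hL4⟩ := decomp_countable hM hGMc le_rfl hM.QM_le
  obtain ⟨r, hr⟩ := exists_retraction hL2 hL3 hL4
  have hfamQ : Fam (⊥ : Subgroup QM) := hall hQMc (isFC_of_le_Qh hM.QM_le)
    (torsion_of_le_Qh hM.QM_le) (residuallyFinite_of_le_Qh hFC hM.QM_le)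
  let f : G →* QM := r.comp ((MulAut.conj : G →* MulAut G).codRestrict (Qh G) (conj_mem_Qh hFC))
  have h1 := fam_inf (fam_second hFC hX) (hfamQ.comap f)
  have h2 : Subgroup.upperCentralSeries G 2 ⊓ (⊥ : Subgroup QM).comap f = center G := by
    ext g
    constructor
    · rintro ⟨hg1, hg2⟩
      have hg3 : f g = 1 := hg2
      replace hg1 := (mem_second g).mp hg1
      -- the class of `g` is in the centre of the quotient
      have hgc : (g : G ⧸ center G) ∈ center (G ⧸ center G) := by
        rw [mem_center_iff]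
        intro q
        obtain ⟨x, rfl⟩ := QuotientGroup.mk_surjective q
        rw [← QuotientGroup.mk_mul, ← QuotientGroup.mk_mul, eq_comm]
        apply QuotientGroup.eq.mpr
        have h7 : (g * x)⁻¹ * (x * g) = x⁻¹ * (g⁻¹ * x * g * x⁻¹) * x⁻¹⁻¹ := by group
        rw [h7]
        apply (inferInstance : (center G).Normal).conj_mem
        have h8 := (inferInstance : (center G).Normal).conj_mem _ (inv_mem (hg1 x)) (g⁻¹)
        convert h8 using 1
        group
      let q : center (G ⧸ center G) := ⟨(g : G ⧸ center G), hgc⟩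
      have hq : Sum.inl q.1.out ∈ cl S := hcl1 S ⟨q, rfl⟩
      have hq2 : MulAut.conj (q.1.out) ∈ QM := hM.conj _ ((hGM _).mpr hq)
      obtain ⟨z, hz⟩ := QuotientGroup.mk_out_eq_mul (center G) g
      have hconj : MulAut.conj g = MulAut.conj (q.1.out) := by
        have h9 : q.1.out = g * z := hz
        have h10 : MulAut.conj (z : G) = 1 := by
          have : (z : G) ∈ (MulAut.conj : G →* MulAut G).ker := by rw [conj_ker]; exact z.2
          exact this
        rw [h9, map_mul, h10, mul_one]
      have hgQ : MulAut.conj g ∈ QM := by rw [hconj]; exact hq2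
      have h11 : f g = ⟨MulAut.conj g, hgQ⟩ :=
        hr ⟨MulAut.conj g, conj_mem_Qh hFC g⟩ hgQ
      rw [hg3] at h11
      have h12 : MulAut.conj g = 1 := (congrArg Subtype.val h11).symm
      rw [← conj_ker, MonoidHom.mem_ker]
      exact h12
    · intro hg
      refine ⟨(mem_second g).mpr ?_, ?_⟩
      · intro x
        have h3 := mem_center_iff.mp hg x
        have h4 : g * x * g⁻¹ * x⁻¹ = 1 := by rw [← h3]; group
        rw [h4]
        exact one_mem _
      · have h3 : MulAut.conj g = 1 := by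
          have : g ∈ (MulAut.conj : G →* MulAut G).ker := by rw [conj_ker]; exact hg
          exact this
        change f g = 1
        have h4 : ((MulAut.conj : G →* MulAut G).codRestrict (Qh G) (conj_mem_Qh hFC)) g = 1 :=
          Subtype.ext h3
        change r (((MulAut.conj : G →* MulAut G).codRestrict (Qh G) (conj_mem_Qh hFC)) g) = 1
        rw [h4, map_one]
  rw [h2] at h1
  exact h1

end Pool.Agent.FCG
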